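import Pool.Agent.helper1.T1N.SpecN

/-!
# Row t1:NEE (MP_07c750_an, theorem T1)
-/

set_option autoImplicit false

open MeasureTheory Finset

namespace Pool.Agent.T1N

noncomputable section

theorem NEE_norm (x : ℝ) : ‖ee x‖ = 1 := by
  unfold ee
  exact Complex.norm_exp_ofReal_mul_I _

theorem NEE_add (x y : ℝ) : ee (x + y) = ee x * ee y := by
  unfold ee
  rw [← Complex.exp_add]
  congr 1
  push_cast
  ring

theorem NEE_conj (x : ℝ) : (starRingEnd ℂ) (ee x) = ee (-x) := by
  unfold ee
  rw [← Complex.exp_conj]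
  congr 1
  rw [map_mul, Complex.conj_I, Complex.conj_ofReal]
  push_cast
  ring

theorem NEE_sub (x y : ℝ) : ‖ee x - ee y‖ ≤ 2 * Real.pi * |x - y| := by
  have h1 : ee x - ee y = ee y * (ee (x - y) - 1) := by
    rw [mul_sub, ← NEE_add, mul_one]
    congr 2
    ring
  rw [h1, norm_mul, NEE_norm, one_mul]
  have h2 := Real.norm_exp_I_mul_ofReal_sub_one_le (x := 2 * Real.pi * (x - y))
  have h3 : ee (x - y) = Complex.exp (Complex.I * ((2 * Real.pi * (x - y) : ℝ) : ℂ)) := by
    unfold ee
    rw [mul_comm]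
  rw [h3]
  refine h2.trans ?_
  rw [Real.norm_eq_abs, abs_mul, abs_of_pos (by positivity : (0 : ℝ) < 2 * Real.pi)]

theorem NEE_cont : Continuous ee := by
  unfold ee
  fun_prop

theorem NEE_proof : NEE_stmt := by
  refine ⟨NEE_norm, NEE_add, NEE_conj, NEE_sub, NEE_cont, ?_, ?_⟩
  · intro U t X
    have h : EE U (-t) X = (starRingEnd ℂ) (EE U t X) := by
      unfold EE
      rw [map_sum]
      refine Finset.sum_congr rfl fun u _ => ?_
      rw [NEE_conj]
      congr 1
      ring
    rw [h, Complex.norm_conj]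
  · intro ι s c x y
    unfold F2
    refine continuous_finsetSum _ fun k _ => ?_
    refine continuous_const.mul (NEE_cont.comp ?_)
    fun_prop

end

end Pool.Agent.T1N
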